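import Pool.Agent.Run7.h999.WU.T12

/-!
# Project WU (helper381), piece HNC: spanning trees are hereditarily negatively correlated
(helper999)
-/

set_option autoImplicit false

namespace Run7.h999.WU

open Finset
open Pool.Agent.TH968.UST (Conn IsSpan trees wired touch ustProb)
open Run7.h381.WU

section

variable {V : Type}

theorem dd_self_nonneg (φ : V → ℝ) (e : Sym2 V) : 0 ≤ dd φ φ e := by
  induction e using Sym2.ind with
  | _ a b => exact mul_self_nonneg _

theorem DF_self_nonneg (E : Finset (Sym2 V)) (φ : V → ℝ) : 0 ≤ DF E φ φ :=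
  Finset.sum_nonneg fun e _ => dd_self_nonneg φ e

theorem DF_sub (E : Finset (Sym2 V)) (φ ψ : V → ℝ) :
    DF E (fun v => ψ v - φ v) (fun v => ψ v - φ v) = DF E ψ ψ - 2 * DF E φ ψ + DF E φ φ := by
  unfold DF
  rw [Finset.mul_sum, ← Finset.sum_sub_distrib, ← Finset.sum_add_distrib]
  refine Finset.sum_congr rfl fun e _ => ?_
  induction e using Sym2.ind with
  | _ a b => simp only [dd, Sym2.lift_mk]; ring

/-- the case of two edges -/
theorem base (hP : S_POT) (hK : S_KIR) (r : Setoid V) (E : Finset (Sym2 V)) (x y u v : V)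
    (hf : s(u, v) ∈ E) (huv : ¬ glue r x y u v) :
    (trees (glue (glue r x y) u v) E).card * (trees r E).card ≤
      (trees (glue r x y) E).card * (trees (glue r u v) E).card := by
  have huv' : ¬ r u v := fun h => huv (glue_ge h)
  have hc : Conn r (E : Set (Sym2 V)) u v := conn_mem (Finset.mem_coe.2 hf)
  have hc' : Conn (glue r x y) (E : Set (Sym2 V)) u v := conn_mem (Finset.mem_coe.2 hf)
  obtain ⟨φ, hφ, -⟩ := hP V r E u v hc
  obtain ⟨ψ, hψ, -⟩ := hP V (glue r x y) E u v hc'
  have k1 := hK V r E u v φ huv' hc hφ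
  have k2 := hK V (glue r x y) E u v ψ huv hc' hψ
  have hinv : Inv r ψ := fun a b h => hψ.1 a b (glue_ge h)
  have e1 := hφ.2 φ hφ.1
  have e2 := hφ.2 ψ hinv
  have e3 := hψ.2 ψ hψ.1
  have h1 := DF_self_nonneg E (fun v => ψ v - φ v)
  rw [DF_sub, e1, e2, e3] at h1
  have h2 : (0 : ℝ) ≤ (trees (glue r x y) E).card * (trees r E).card := by positivity
  have h3 : ((trees (glue (glue r x y) u v) E).card : ℝ) * (trees r E).card ≤
      (trees (glue r x y) E).card * (trees (glue r u v) E).card := by
    rw [k1, k2]
    nlinarith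
  exact_mod_cast h3

/-- the edges of a tree -/
theorem tree_sub {r : Setoid V} {E T : Finset (Sym2 V)} (h : T ∈ trees r E) : T ⊆ E := fun x hx =>
  Finset.mem_coe.1 (((mem_trees _ _ _).1 h).1 (Finset.mem_coe.2 hx))

theorem not_mem_tree {r : Setoid V} {E T : Finset (Sym2 V)} (h : T ∈ trees r E) {x y : V}
    (hxy : r x y) : s(x, y) ∉ T := fun hm =>
  ((mem_trees _ _ _).1 h).2.2 x y (Finset.mem_coe.2 hm) (conn_rel hxy)

variable [DecidableEq (Sym2 V)]

theorem cnt_zero {B : Finset (Finset (Sym2 V))} {J O : Finset (Sym2 V)}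
    (h : ∀ T ∈ B, J ⊆ T → Disjoint O T → False) : cnt B J O = 0 := by
  unfold cnt
  rw [Finset.card_eq_zero, Finset.filter_eq_empty_iff]
  rintro T hT ⟨h1, h2⟩
  exact h T hT h1 h2

theorem cnt_contract (r : Setoid V) (E K : Finset (Sym2 V)) (x y : V) (hE : s(x, y) ∈ E)
    (hxy : ¬ r x y) (hK : s(x, y) ∉ K) :
    cnt (trees r E) (insert s(x, y) K) ∅ = cnt (trees (glue r x y) E) K ∅ := by
  unfold cnt
  refine Finset.card_bij' (fun T _ => T.erase s(x, y)) (fun T _ => insert s(x, y) T) ?_ ?_ ?_ ?_
  · intro T hT
    rw [Finset.mem_filter] at hT ⊢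
    have hm : s(x, y) ∈ T := hT.2.1 (Finset.mem_insert_self _ _)
    refine ⟨(T2 V r E x y hE hxy (T.erase s(x, y)) (Finset.notMem_erase _ _)).1 ?_, fun z hz => ?_,
      Finset.disjoint_empty_left _⟩
    · rw [Finset.insert_erase hm]; exact hT.1
    · rw [Finset.mem_erase]
      exact ⟨fun h => hK (h ▸ hz), hT.2.1 (Finset.mem_insert_of_mem hz)⟩
  · intro T hT
    rw [Finset.mem_filter] at hT ⊢
    have hn : s(x, y) ∉ T := not_mem_tree hT.1 (glue_xy r x y)
    exact ⟨(T2 V r E x y hE hxy T hn).2 hT.1, Finset.insert_subset_insert _ hT.2.1,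
      Finset.disjoint_empty_left _⟩
  · intro T hT
    rw [Finset.mem_filter] at hT
    exact Finset.insert_erase (hT.2.1 (Finset.mem_insert_self _ _))
  · intro T hT
    rw [Finset.mem_filter] at hT
    exact Finset.erase_insert (not_mem_tree hT.1 (glue_xy r x y))

theorem cnt_delete (r : Setoid V) (E : Finset (Sym2 V)) (o : Sym2 V) (T₀ : Finset (Sym2 V))
    (hT₀ : T₀ ∈ trees r E) (ho : o ∉ T₀) (J O : Finset (Sym2 V)) :
    cnt (trees r E) J (insert o O) = cnt (trees r (E.erase o)) J O := by
  unfold cnt
  congr 1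
  ext T
  rw [Finset.mem_filter, Finset.mem_filter, T3 V r E o T₀ hT₀ ho T, Finset.disjoint_insert_left]
  tauto

/-- two edges -/
theorem two (hP : S_POT) (hK : S_KIR) (r : Setoid V) (E : Finset (Sym2 V)) (e f : Sym2 V)
    (hef : e ≠ f) :
    cnt (trees r E) (insert e (insert f ∅)) ∅ * cnt (trees r E) ∅ ∅ ≤
      cnt (trees r E) (insert e ∅) ∅ * cnt (trees r E) (insert f ∅) ∅ := by
  induction e using Sym2.ind with
  | _ x y =>
    induction f using Sym2.ind with
    | _ u v =>
      have h0 : cnt (trees r E) ∅ ∅ = (trees r E).card := by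
        unfold cnt
        congr 1
        exact Finset.filter_true_of_mem fun T _ => ⟨Finset.empty_subset _,
          Finset.disjoint_empty_left _⟩
      by_cases h : s(x, y) ∈ E ∧ ¬ r x y ∧ s(u, v) ∈ E ∧ ¬ glue r x y u v
      · obtain ⟨hx, hxy, hu, huv⟩ := h
        have huv' : ¬ r u v := fun h => huv (glue_ge h)
        rw [cnt_contract r E _ x y hx hxy (by simpa using hef),
          cnt_contract (glue r x y) E _ u v hu huv (Finset.notMem_empty _),
          cnt_contract r E _ x y hx hxy (Finset.notMem_empty _),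
          cnt_contract r E _ u v hu huv' (Finset.notMem_empty _)]
        have hc : ∀ (r' : Setoid V), cnt (trees r' E) ∅ ∅ = (trees r' E).card := fun r' => by
          unfold cnt
          congr 1
          exact Finset.filter_true_of_mem fun T _ => ⟨Finset.empty_subset _,
            Finset.disjoint_empty_left _⟩
        rw [hc, hc, hc, hc]
        exact base hP hK r E x y u v hu huv
      · have hz : cnt (trees r E) (insert s(x, y) (insert s(u, v) ∅)) ∅ = 0 := by
          by_cases hx : s(x, y) ∈ E ∧ ¬ r x y
          · rw [cnt_contract r E _ x y hx.1 hx.2 (by simpa using hef)]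
            refine cnt_zero fun T hT hJ _ => h ⟨hx.1, hx.2, ?_, fun huv => ?_⟩
            · exact tree_sub hT (hJ (Finset.mem_insert_self _ _))
            · exact not_mem_tree hT huv (hJ (Finset.mem_insert_self _ _))
          · refine cnt_zero fun T hT hJ _ => hx ⟨?_, fun hr => ?_⟩
            · exact tree_sub hT (hJ (Finset.mem_insert_self _ _))
            · exact not_mem_tree hT hr (hJ (Finset.mem_insert_self _ _))
        rw [hz, zero_mul]
        exact Nat.zero_le _

/-- without deleted edges -/
theorem noO (hP : S_POT) (hK : S_KIR) (E : Finset (Sym2 V)) (e f : Sym2 V) (hef : e ≠ f)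
    (J : Finset (Sym2 V)) : ∀ (r : Setoid V),
    cnt (trees r E) (insert e (insert f J)) ∅ * cnt (trees r E) J ∅ ≤
      cnt (trees r E) (insert e J) ∅ * cnt (trees r E) (insert f J) ∅ := by
  induction J using Finset.induction_on with
  | empty => exact fun r => two hP hK r E e f hef
  | insert j K hj ih =>
    intro r
    by_cases he : e = j
    · subst he
      rw [Finset.insert_comm f e K, Finset.insert_idem, Finset.insert_idem]
      rw [mul_comm]
    by_cases hf : f = j
    · subst hf
      rw [Finset.insert_idem]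
    induction j using Sym2.ind with
    | _ x y =>
      by_cases hx : s(x, y) ∈ E ∧ ¬ r x y
      · have hfj : s(x, y) ∉ insert f K := by
          rw [Finset.mem_insert]
          rintro (h | h)
          · exact hf h.symm
          · exact hj h
        have hej : s(x, y) ∉ insert e K := by
          rw [Finset.mem_insert]
          rintro (h | h)
          · exact he h.symm
          · exact hj h
        have hefj : s(x, y) ∉ insert e (insert f K) := by
          rw [Finset.mem_insert]
          rintro (h | h)
          · exact he h.symm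
          · exact hfj h
        rw [Finset.insert_comm f s(x, y) K, Finset.insert_comm e s(x, y) (insert f K),
          Finset.insert_comm e s(x, y) K, cnt_contract r E _ x y hx.1 hx.2 hefj, cnt_contract r E _ x y hx.1 hx.2 hj,
          cnt_contract r E _ x y hx.1 hx.2 hej, cnt_contract r E _ x y hx.1 hx.2 hfj]
        exact ih _
      · have hz : cnt (trees r E) (insert s(x, y) K) ∅ = 0 := by
          refine cnt_zero fun T hT hJ _ => hx ⟨?_, fun hr => ?_⟩
          · exact tree_sub hT (hJ (Finset.mem_insert_self _ _))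
          · exact not_mem_tree hT hr (hJ (Finset.mem_insert_self _ _))
        rw [hz, mul_zero]
        exact Nat.zero_le _

theorem hnc_aux (hP : S_POT) (hK : S_KIR) (r : Setoid V) (e f : Sym2 V) (hef : e ≠ f)
    (J O : Finset (Sym2 V)) : ∀ (E : Finset (Sym2 V)),
    cnt (trees r E) (insert e (insert f J)) O * cnt (trees r E) J O ≤
      cnt (trees r E) (insert e J) O * cnt (trees r E) (insert f J) O := by
  induction O using Finset.induction_on with
  | empty => exact fun E => noO hP hK E e f hef J r
  | insert o O _ ih =>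
    intro E
    by_cases h : ∃ T₀ ∈ trees r E, o ∉ T₀
    · obtain ⟨T₀, hT₀, ho⟩ := h
      rw [cnt_delete r E o T₀ hT₀ ho, cnt_delete r E o T₀ hT₀ ho, cnt_delete r E o T₀ hT₀ ho,
        cnt_delete r E o T₀ hT₀ ho]
      exact ih _
    · push Not at h
      have hz : cnt (trees r E) J (insert o O) = 0 := by
        refine cnt_zero fun T hT _ hd => ?_
        rw [Finset.disjoint_insert_left] at hd
        exact hd.1 (h T hT)
      rw [hz, mul_zero]
      exact Nat.zero_le _

end

/-- **HNC**: spanning trees are hereditarily negatively correlated -/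
theorem hnc (hP : S_POT) (hK : S_KIR) : S_HNC :=
  fun _ _ r E J O e f hef => hnc_aux hP hK r e f hef J O E

end Run7.h999.WU
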