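import Pool.Agent.Run7.h381.WU.Stm

/-!
# Project WU (helper381), pieces T1, T2, T3, T3': existence, contraction and deletion of spanning
trees (helper999)
-/

set_option autoImplicit false

namespace Run7.h999.WU

open Finset
open Pool.Agent.TH968.UST (Conn IsSpan trees wired touch ustProb)
open Run7.h381.WU

section conn

variable {V : Type} {r : Setoid V} {S T : Set (Sym2 V)} {a b c d : V}

theorem conn_refl (r : Setoid V) (T : Set (Sym2 V)) (a : V) : Conn r T a a :=
  Relation.EqvGen.refl a

theorem conn_symm (h : Conn r T a b) : Conn r T b a := Relation.EqvGen.symm _ _ h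

theorem conn_trans (h : Conn r T a b) (h' : Conn r T b c) : Conn r T a c :=
  Relation.EqvGen.trans _ _ _ h h'

theorem conn_rel (h : r a b) : Conn r T a b := Relation.EqvGen.rel _ _ (Or.inl h)

theorem conn_mem (h : s(a, b) ∈ T) : Conn r T a b := Relation.EqvGen.rel _ _ (Or.inr h)

/-- `Conn r T` is the smallest equivalence relation containing `r` and the edges of `T` -/
theorem conn_le {R : V → V → Prop} (hR : Equivalence R) (h1 : ∀ a b, r a b → R a b)
    (h2 : ∀ a b, s(a, b) ∈ T → R a b) (h : Conn r T a b) : R a b := by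
  induction h with
  | rel x y h => exact h.elim (h1 x y) (h2 x y)
  | refl x => exact hR.refl x
  | symm x y _ ih => exact hR.symm ih
  | trans x y z _ _ ih1 ih2 => exact hR.trans ih1 ih2

theorem conn_equiv (r : Setoid V) (T : Set (Sym2 V)) : Equivalence (Conn r T) :=
  ⟨conn_refl r T, conn_symm, conn_trans⟩

theorem conn_mono (h : S ⊆ T) (hc : Conn r S a b) : Conn r T a b :=
  conn_le (conn_equiv r T) (fun _ _ => conn_rel) (fun _ _ hm => conn_mem (h hm)) hc

/-- if the ends of the edges of `S` are connected in `T` -/
theorem conn_of_conn (h : ∀ a b, s(a, b) ∈ S → Conn r T a b) (hc : Conn r S a b) : Conn r T a b :=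
  conn_le (conn_equiv r T) (fun _ _ => conn_rel) h hc

/-- exchange -/
theorem conn_insert (r : Setoid V) (S : Set (Sym2 V)) (a b c d : V)
    (h : Conn r (insert s(a, b) S) c d) :
    Conn r S c d ∨ (Conn r S c a ∧ Conn r S b d) ∨ (Conn r S c b ∧ Conn r S a d) := by
  have hE : Equivalence (fun c d : V => Conn r S c d ∨ (Conn r S c a ∧ Conn r S b d) ∨
      (Conn r S c b ∧ Conn r S a d)) := by
    refine ⟨fun x => Or.inl (conn_refl r S x), ?_, ?_⟩
    · rintro x y (h | ⟨h1, h2⟩ | ⟨h1, h2⟩)
      · exact Or.inl (conn_symm h)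
      · exact Or.inr (Or.inr ⟨conn_symm h2, conn_symm h1⟩)
      · exact Or.inr (Or.inl ⟨conn_symm h2, conn_symm h1⟩)
    · rintro x y z (h | ⟨h1, h2⟩ | ⟨h1, h2⟩) (h' | ⟨h1', h2'⟩ | ⟨h1', h2'⟩)
      · exact Or.inl (conn_trans h h')
      · exact Or.inr (Or.inl ⟨conn_trans h h1', h2'⟩)
      · exact Or.inr (Or.inr ⟨conn_trans h h1', h2'⟩)
      · exact Or.inr (Or.inl ⟨h1, conn_trans h2 h'⟩)
      · exact Or.inr (Or.inl ⟨h1, h2'⟩)
      · exact Or.inl (conn_trans h1 h2')
      · exact Or.inr (Or.inr ⟨h1, conn_trans h2 h'⟩)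
      · exact Or.inl (conn_trans h1 h2')
      · exact Or.inr (Or.inr ⟨h1, h2'⟩)
  refine conn_le (R := fun c d : V => Conn r S c d ∨ (Conn r S c a ∧ Conn r S b d) ∨
      (Conn r S c b ∧ Conn r S a d)) hE (fun x y h => Or.inl (conn_rel h)) (fun x y h => ?_) h
  rcases Set.mem_insert_iff.1 h with h | h
  · rcases Sym2.eq_iff.1 h with ⟨rfl, rfl⟩ | ⟨rfl, rfl⟩
    · exact Or.inr (Or.inl ⟨conn_refl r S _, conn_refl r S _⟩)
    · exact Or.inr (Or.inr ⟨conn_refl r S _, conn_refl r S _⟩)
  · exact Or.inl (conn_mem h)

theorem conn_empty (h : Conn r ∅ a b) : r a b :=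
  conn_le (R := fun a b => r a b) ⟨r.refl, r.symm, r.trans⟩ (fun _ _ h => h)
    (fun _ _ h => absurd h (Set.notMem_empty _)) h

theorem glue_ge {x y : V} (h : r a b) : glue r x y a b :=
  (le_sup_left : r ≤ r ⊔ Relation.EqvGen.setoid (fun a b => a = x ∧ b = y)) h

theorem glue_xy (r : Setoid V) (x y : V) : glue r x y x y :=
  (le_sup_right : Relation.EqvGen.setoid (fun a b => a = x ∧ b = y) ≤
    r ⊔ Relation.EqvGen.setoid (fun a b => a = x ∧ b = y)) (Relation.EqvGen.rel _ _ ⟨rfl, rfl⟩)

theorem glue_le {R : Setoid V} {x y : V} (h1 : ∀ a b, r a b → R a b) (h2 : R x y)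
    (h : glue r x y a b) : R a b := by
  have : glue r x y ≤ R := by
    refine sup_le (fun {a b} h => h1 a b h) ?_
    intro a b hab
    have hab' : Relation.EqvGen (fun a b => a = x ∧ b = y) a b := hab
    induction hab' with
    | rel a b h => rcases h with ⟨rfl, rfl⟩; exact h2
    | refl a => exact R.refl a
    | symm a b _ ih => exact R.symm (ih (by assumption))
    | trans a b c _ _ ih1 ih2 => exact R.trans (ih1 (by assumption)) (ih2 (by assumption))
  exact this h

/-- the relation `Conn r T` as a setoid -/
def CS (r : Setoid V) (T : Set (Sym2 V)) : Setoid V := ⟨Conn r T, conn_equiv r T⟩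

theorem conn_glue (r : Setoid V) (T : Set (Sym2 V)) (x y a b : V) :
    Conn (glue r x y) T a b ↔ Conn r (insert s(x, y) T) a b := by
  constructor
  · intro h
    refine conn_le (conn_equiv _ _) (fun a b h => ?_) (fun a b h => conn_mem (Or.inr h)) h
    exact glue_le (R := CS r (insert s(x, y) T)) (fun a b h => (conn_rel h : Conn _ _ a b))
      (conn_mem (Or.inl rfl) : Conn _ _ x y) h
  · intro h
    refine conn_le (conn_equiv _ _) (fun a b h => conn_rel (glue_ge h)) (fun a b h => ?_) h
    rcases Set.mem_insert_iff.1 h with h | h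
    · rcases Sym2.eq_iff.1 h with ⟨rfl, rfl⟩ | ⟨rfl, rfl⟩
      · exact conn_rel (glue_xy r _ _)
      · exact conn_symm (conn_rel (glue_xy r _ _))
    · exact conn_mem h

end conn

theorem mem_trees {V : Type} (r : Setoid V) (E T : Finset (Sym2 V)) :
    T ∈ trees r E ↔ IsSpan r (E : Set (Sym2 V)) (T : Set (Sym2 V)) := by
  classical
  unfold trees
  simp only [Finset.mem_filter, Finset.mem_powerset]
  exact ⟨fun h => h.2, fun h => ⟨fun x hx => by exact_mod_cast h.1 (Finset.mem_coe.2 hx), h⟩⟩

/-- a set in which all edges of `E` are connected contains a spanning tree -/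
theorem exists_tree {V : Type} (r : Setoid V) (E S : Finset (Sym2 V)) (hS : S ⊆ E)
    (h : ∀ a b, s(a, b) ∈ E → Conn r (S : Set (Sym2 V)) a b) : ∃ T ∈ trees r E, T ⊆ S := by
  classical
  obtain ⟨T, hT, hmin⟩ := Finset.exists_min_image
    (S.powerset.filter fun T : Finset (Sym2 V) => ∀ a b, s(a, b) ∈ E →
      Conn r (T : Set (Sym2 V)) a b)
    Finset.card ⟨S, by
      rw [Finset.mem_filter, Finset.mem_powerset]; exact ⟨le_refl _, h⟩⟩
  rw [Finset.mem_filter, Finset.mem_powerset] at hT
  refine ⟨T, (mem_trees r E T).2 ⟨?_, fun a b hab => hT.2 a b (by exact_mod_cast hab), ?_⟩, hT.1⟩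
  · exact_mod_cast hT.1.trans hS
  · intro a b hab hc
    have hab' : s(a, b) ∈ T := by exact_mod_cast hab
    have h1 := hmin (T.erase s(a, b)) (by
      rw [Finset.mem_filter, Finset.mem_powerset]
      refine ⟨(Finset.erase_subset _ _).trans hT.1, fun c d hcd => ?_⟩
      refine conn_of_conn (fun u v huv => ?_) (hT.2 c d hcd)
      by_cases he : s(u, v) = s(a, b)
      · have hc' : Conn r ((T.erase s(a, b) : Finset (Sym2 V)) : Set (Sym2 V)) a b := by
          simpa [Finset.coe_erase] using hc
        rcases Sym2.eq_iff.1 he with ⟨rfl, rfl⟩ | ⟨rfl, rfl⟩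
        · exact hc'
        · exact conn_symm hc'
      · exact conn_mem (by
          rw [Finset.mem_coe, Finset.mem_erase]
          exact ⟨he, by exact_mod_cast huv⟩))
    have h2 := Finset.card_erase_lt_of_mem hab'
    omega

theorem T1 : S_T1 := by
  intro V r E
  obtain ⟨T, hT, -⟩ := exists_tree r E E (le_refl _) (fun a b h => conn_mem (by exact_mod_cast h))
  exact ⟨T, hT⟩

/-- in a set of edges without parallel paths even after the identification of `x` and `y`,
`x` and `y` are not connected -/
theorem not_conn_of_glue {V : Type} (r : Setoid V) (x y : V) (hxy : ¬ r x y)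
    (T : Finset (Sym2 V))
    (h : ∀ a b, s(a, b) ∈ T → ¬ Conn (glue r x y) ((T : Set (Sym2 V)) \ {s(a, b)}) a b) :
    ¬ Conn r (T : Set (Sym2 V)) x y := by
  classical
  intro hc
  obtain ⟨T1, hT1, hmin⟩ := Finset.exists_min_image
    (T.powerset.filter fun T1 : Finset (Sym2 V) => Conn r (T1 : Set (Sym2 V)) x y) Finset.card ⟨T, by simp [hc]⟩
  rw [Finset.mem_filter, Finset.mem_powerset] at hT1
  have hne : T1.Nonempty := by
    rw [Finset.nonempty_iff_ne_empty]
    rintro rfl
    exact hxy (conn_empty (by simpa using hT1.2))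
  obtain ⟨g, hg⟩ := hne
  induction g using Sym2.ind with
  | _ a b =>
    have hn : ¬ Conn r ((T1.erase s(a, b) : Finset (Sym2 V)) : Set (Sym2 V)) x y := by
      intro h'
      have h1 := hmin (T1.erase s(a, b)) (by
        rw [Finset.mem_filter, Finset.mem_powerset]
        exact ⟨(Finset.erase_subset _ _).trans hT1.1, h'⟩)
      have h2 := Finset.card_erase_lt_of_mem hg
      omega
    have hins : (T1 : Set (Sym2 V)) = insert s(a, b)
        ((T1.erase s(a, b) : Finset (Sym2 V)) : Set (Sym2 V)) := by
      rw [← Finset.coe_insert, Finset.insert_erase hg]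
    have hsub : ((T1.erase s(a, b) : Finset (Sym2 V)) : Set (Sym2 V)) ⊆
        (T : Set (Sym2 V)) \ {s(a, b)} := by
      intro e he
      rw [Finset.mem_coe, Finset.mem_erase] at he
      exact ⟨Finset.mem_coe.2 (hT1.1 he.2), by simpa using he.1⟩
    have hup : ∀ u v, Conn r ((T1.erase s(a, b) : Finset (Sym2 V)) : Set (Sym2 V)) u v →
        Conn (glue r x y) ((T : Set (Sym2 V)) \ {s(a, b)}) u v := fun u v huv =>
      (conn_glue r _ x y u v).2 (conn_mono (hsub.trans (Set.subset_insert _ _)) huv)
    have hxy' : Conn (glue r x y) ((T : Set (Sym2 V)) \ {s(a, b)}) x y :=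
      conn_rel (glue_xy r x y)
    rcases conn_insert r _ a b x y (hins ▸ hT1.2) with h' | ⟨h1, h2⟩ | ⟨h1, h2⟩
    · exact hn h'
    · exact h a b (hT1.1 hg) (conn_trans (conn_symm (hup _ _ h1))
        (conn_trans hxy' (conn_symm (hup _ _ h2))))
    · exact h a b (hT1.1 hg) (conn_trans (hup _ _ h2)
        (conn_trans (conn_symm hxy') (hup _ _ h1)))

theorem T2 : S_T2 := by
  intro V r E x y hE hxy T hT _
  have hco : ((insert s(x, y) T : Finset (Sym2 V)) : Set (Sym2 V)) =
      insert s(x, y) (T : Set (Sym2 V)) := by push_cast; rfl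
  have hTx : s(x, y) ∉ (T : Set (Sym2 V)) := by exact_mod_cast hT
  rw [mem_trees, mem_trees]
  unfold IsSpan
  rw [hco]
  constructor
  · rintro ⟨h1, h2, h3⟩
    refine ⟨fun e he => h1 (Or.inr he), fun a b hab => (conn_glue r _ x y a b).2 (h2 a b hab),
      fun a b hab hc => ?_⟩
    have hne : s(a, b) ≠ s(x, y) := fun h => hTx (h ▸ hab)
    refine h3 a b (Or.inr hab) ?_
    rw [conn_glue] at hc
    refine conn_mono ?_ hc
    intro e he
    rcases Set.mem_insert_iff.1 he with rfl | he
    · exact ⟨Or.inl rfl, by simpa using hne.symm⟩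
    · exact ⟨Or.inr he.1, he.2⟩
  · rintro ⟨h1, h2, h3⟩
    refine ⟨?_, fun a b hab => (conn_glue r _ x y a b).1 (h2 a b hab), ?_⟩
    · intro e he
      rcases Set.mem_insert_iff.1 he with rfl | he
      · exact_mod_cast hE
      · exact h1 he
    · intro a b hab hc
      rcases Set.mem_insert_iff.1 hab with hab | hab
      · have hn := not_conn_of_glue r x y hxy T (fun a b hab => h3 a b (by exact_mod_cast hab))
        rw [hab] at hc
        have hd : insert s(x, y) (T : Set (Sym2 V)) \ {s(x, y)} = (T : Set (Sym2 V)) := by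
          ext e
          simp only [Set.mem_sdiff, Set.mem_insert_iff, Set.mem_singleton_iff]
          constructor
          · rintro ⟨h | h, h'⟩
            · exact absurd h h'
            · exact h
          · intro h
            exact ⟨Or.inr h, fun h' => hTx (h' ▸ h)⟩
        rw [hd] at hc
        rcases Sym2.eq_iff.1 hab with ⟨rfl, rfl⟩ | ⟨rfl, rfl⟩
        · exact hn hc
        · exact hn (conn_symm hc)
      · refine h3 a b hab ((conn_glue r _ x y a b).2 (conn_mono ?_ hc))
        rintro e ⟨he, he'⟩
        rcases Set.mem_insert_iff.1 he with rfl | he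
        · exact Or.inl rfl
        · exact Or.inr ⟨he, he'⟩

theorem T3 : S_T3 := by
  intro V _ r E e T₀ hT₀ he T
  rw [mem_trees, mem_trees]
  rw [mem_trees] at hT₀
  unfold IsSpan at *
  constructor
  · rintro ⟨h1, h2, h3⟩
    have heT : e ∉ T := fun h => by
      have := h1 (Finset.mem_coe.2 h)
      rw [Finset.mem_coe, Finset.mem_erase] at this
      exact this.1 rfl
    refine ⟨⟨fun x hx => ?_, fun a b hab => ?_, h3⟩, heT⟩
    · have := h1 hx
      rw [Finset.mem_coe, Finset.mem_erase] at this
      exact this.2
    · refine conn_of_conn (fun u v huv => h2 u v ?_) (hT₀.2.1 a b hab)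
      rw [Finset.mem_coe, Finset.mem_erase]
      exact ⟨fun h => he (h ▸ Finset.mem_coe.1 huv), hT₀.1 huv⟩
  · rintro ⟨⟨h1, h2, h3⟩, heT⟩
    refine ⟨fun x hx => ?_, fun a b hab => h2 a b ?_, h3⟩
    · rw [Finset.mem_coe, Finset.mem_erase]
      exact ⟨fun h => heT (h ▸ Finset.mem_coe.1 hx), h1 hx⟩
    · rw [Finset.mem_coe, Finset.mem_erase] at hab
      exact Finset.mem_coe.2 hab.2

theorem T3p : S_T3' := by
  intro V _ r E e heE hall T
  induction e using Sym2.ind with
  | _ c d =>
    constructor
    · intro hT
      have hT' := (mem_trees _ _ _).1 hT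
      obtain ⟨h1, h2, h3⟩ := hT'
      have heT : s(c, d) ∉ T := fun h => by
        have := h1 (Finset.mem_coe.2 h)
        rw [Finset.mem_coe, Finset.mem_erase] at this
        exact this.1 rfl
      have hTE : (T : Set (Sym2 V)) ⊆ E := fun x hx => by
        have := h1 hx
        rw [Finset.mem_coe, Finset.mem_erase] at this
        exact this.2
      -- the ends of `e` are not connected in `T`
      have hn : ¬ Conn r (T : Set (Sym2 V)) c d := by
        intro hc
        refine heT (hall T ((mem_trees _ _ _).2 ⟨hTE, fun a b hab => ?_, h3⟩))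
        by_cases he : s(a, b) = s(c, d)
        · rcases Sym2.eq_iff.1 he with ⟨rfl, rfl⟩ | ⟨rfl, rfl⟩
          · exact hc
          · exact conn_symm hc
        · exact h2 a b (by rw [Finset.mem_coe, Finset.mem_erase]; exact ⟨he, hab⟩)
      refine ⟨heT, (mem_trees _ _ _).2 ⟨?_, ?_, ?_⟩⟩
      · intro x hx
        rw [Finset.mem_coe, Finset.mem_insert] at hx
        rcases hx with rfl | hx
        · exact heE
        · exact hTE hx
      · intro a b hab
        by_cases he : s(a, b) = s(c, d)
        · exact conn_mem (by rw [he]; simp)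
        · exact conn_mono (by simp) (h2 a b (by
            rw [Finset.mem_coe, Finset.mem_erase]; exact ⟨he, hab⟩))
      · intro a b hab hc
        rw [Finset.coe_insert] at hab hc
        by_cases he : s(a, b) = s(c, d)
        · rw [he] at hc
          have hc' : Conn r (T : Set (Sym2 V)) a b := conn_mono (by
            rintro x ⟨hx, hx'⟩
            rcases Set.mem_insert_iff.1 hx with h | h
            · exact absurd h hx'
            · exact h) hc
          rcases Sym2.eq_iff.1 he with ⟨rfl, rfl⟩ | ⟨rfl, rfl⟩
          · exact hn hc'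
          · exact hn (conn_symm hc')
        · have habT : s(a, b) ∈ (T : Set (Sym2 V)) := by
            rcases Set.mem_insert_iff.1 hab with h | h
            · exact absurd h he
            · exact h
          have hc' : Conn r (insert s(c, d) ((T : Set (Sym2 V)) \ {s(a, b)})) a b := conn_mono (by
            rintro x ⟨hx, hx'⟩
            rcases Set.mem_insert_iff.1 hx with h | h
            · exact Or.inl h
            · exact Or.inr ⟨h, hx'⟩) hc
          have hsub : (T : Set (Sym2 V)) \ {s(a, b)} ⊆ T := Set.sdiff_subset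
          rcases conn_insert r _ c d a b hc' with h | ⟨h, h'⟩ | ⟨h, h'⟩
          · exact h3 a b habT h
          · exact hn (conn_trans (conn_symm (conn_mono hsub h)) (conn_trans (conn_mem habT)
              (conn_symm (conn_mono hsub h'))))
          · exact hn (conn_trans (conn_mono hsub h') (conn_trans (conn_symm (conn_mem habT))
              (conn_mono hsub h)))
    · rintro ⟨heT, hT⟩
      have hT' := (mem_trees _ _ _).1 hT
      obtain ⟨h1, h2, h3⟩ := hT'
      rw [Finset.coe_insert] at h1 h2 h3
      have hTE : ∀ x ∈ T, x ∈ E := fun x hx => Finset.mem_coe.1 (h1 (Or.inr (Finset.mem_coe.2 hx)))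
      -- edges of `T` are bridges in `insert e T`
      have h3T : ∀ a b, s(a, b) ∈ (T : Set (Sym2 V)) →
          ¬ Conn r (insert s(c, d) ((T : Set (Sym2 V)) \ {s(a, b)})) a b := by
        intro a b hab hc
        refine h3 a b (Or.inr hab) (conn_mono ?_ hc)
        intro x hx
        rcases Set.mem_insert_iff.1 hx with rfl | hx
        · exact ⟨Or.inl rfl, fun h => heT (by
            have : s(c, d) = s(a, b) := h
            rw [this]; exact Finset.mem_coe.1 hab)⟩
        · exact ⟨Or.inr hx.1, hx.2⟩
      refine (mem_trees _ _ _).2 ⟨fun x hx => ?_, fun a b hab => ?_, fun a b hab hc => ?_⟩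
      · rw [Finset.mem_coe, Finset.mem_erase]
        exact ⟨fun h => heT (h ▸ Finset.mem_coe.1 hx), hTE x hx⟩
      · by_contra hn
        rw [Finset.mem_coe, Finset.mem_erase] at hab
        have habT : s(a, b) ∉ T := fun h => hn (conn_mem (Finset.mem_coe.2 h))
        -- the ends of `e` are connected in `insert s(a, b) T`
        have hcd : Conn r (insert s(a, b) (T : Set (Sym2 V))) c d := by
          have hm : ∀ u v, Conn r (T : Set (Sym2 V)) u v →
            Conn r (insert s(a, b) (T : Set (Sym2 V))) u v := fun u v h =>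
              conn_mono (Set.subset_insert _ _) h
          have hab' : Conn r (insert s(a, b) (T : Set (Sym2 V))) a b := conn_mem (Or.inl rfl)
          rcases conn_insert r _ c d a b (h2 a b hab.2) with h | ⟨h, h'⟩ | ⟨h, h'⟩
          · exact absurd h hn
          · exact conn_trans (conn_symm (hm _ _ h)) (conn_trans hab' (conn_symm (hm _ _ h')))
          · exact conn_trans (hm _ _ h') (conn_trans (conn_symm hab') (hm _ _ h))
        have hmem : insert s(a, b) T ∈ trees r E := by
          rw [mem_trees, Finset.coe_insert]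
          refine ⟨?_, fun u v huv => ?_, fun u v huv hc => ?_⟩
          · intro x hx
            rcases Set.mem_insert_iff.1 hx with rfl | hx
            · exact hab.2
            · exact hTE x (Finset.mem_coe.1 hx)
          · refine conn_of_conn (fun p q hpq => ?_) (h2 u v huv)
            rcases Set.mem_insert_iff.1 hpq with h | h
            · rcases Sym2.eq_iff.1 h with ⟨rfl, rfl⟩ | ⟨rfl, rfl⟩
              · exact hcd
              · exact conn_symm hcd
            · exact conn_mem (Or.inr h)
          · rcases Set.mem_insert_iff.1 huv with h | h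
            · rw [h] at hc
              have hc' : Conn r (T : Set (Sym2 V)) u v := conn_mono (by
                rintro x ⟨hx, hx'⟩
                rcases Set.mem_insert_iff.1 hx with h | h
                · exact absurd h hx'
                · exact h) hc
              rcases Sym2.eq_iff.1 h with ⟨rfl, rfl⟩ | ⟨rfl, rfl⟩
              · exact hn hc'
              · exact hn (conn_symm hc')
            · have hc' : Conn r (insert s(a, b) ((T : Set (Sym2 V)) \ {s(u, v)})) u v :=
                conn_mono (by
                  rintro x ⟨hx, hx'⟩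
                  rcases Set.mem_insert_iff.1 hx with h | h
                  · exact Or.inl h
                  · exact Or.inr ⟨h, hx'⟩) hc
              have hsub : (T : Set (Sym2 V)) \ {s(u, v)} ⊆ T := Set.sdiff_subset
              rcases conn_insert r _ a b u v hc' with h' | ⟨h', h''⟩ | ⟨h', h''⟩
              · exact h3T u v h (conn_mono (Set.subset_insert _ _) h')
              · exact hn (conn_trans (conn_symm (conn_mono hsub h')) (conn_trans (conn_mem h)
                  (conn_symm (conn_mono hsub h''))))
              · exact hn (conn_trans (conn_mono hsub h'') (conn_trans (conn_symm (conn_mem h))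
                  (conn_mono hsub h')))
        have := hall _ hmem
        rw [Finset.mem_insert] at this
        rcases this with h | h
        · exact hab.1 h.symm
        · exact heT h
      · exact h3T a b hab (conn_mono (Set.subset_insert _ _) hc)

end Run7.h999.WU
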